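import Pool.Agent.Y242.LW.Stm
import Pool.Agent.Helper202.Riemann

/-!
Normal families along the hyperfilter (task NF of the project LW).
-/

set_option autoImplicit false

open Set Filter Topology Complex Metric

namespace Pool.Agent.Y458.LW

open LW242 Pool.Agent.Helper202.Riemann

theorem Hp_open : IsOpen Hp := isOpen_lt continuous_const Complex.continuous_im

theorem Hp_convex : Convex ℝ Hp := convex_halfSpace_im_gt 0

/-- a holomorphic function on the half-plane which is constant near a point is constant -/
theorem const_of_ev {G : ℂ → ℂ} (hG : DifferentiableOn ℂ G Hp) {a c : ℂ} (ha : a ∈ Hp)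
    (h : ∀ᶠ z in 𝓝 a, G z - c = 0) : ∀ z ∈ Hp, G z = c := by
  have h1 : AnalyticOnNhd ℂ G Hp := hG.analyticOnNhd Hp_open
  have h2 : AnalyticOnNhd ℂ (fun _ : ℂ => c) Hp := fun z _ => analyticAt_const
  have h3 : G =ᶠ[𝓝 a] fun _ => c := by
    filter_upwards [h] with z hz
    exact sub_eq_zero.mp hz
  exact h1.eqOn_of_preconnected_of_eventuallyEq h2 Hp_convex.isPreconnected ha h3

theorem nf : S_NF := by
  intro F hF hbd
  set l : Filter ℕ := (hyperfilter ℕ : Filter ℕ) with hl
  have hlim : ∀ z ∈ Hp, ∃ L, Tendsto (fun k => F k z) l (𝓝 L) := by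
    intro z hz
    obtain ⟨r, hr, B, hB⟩ := hbd z hz
    have h1 : ((hyperfilter ℕ).map (fun k => F k z) : Filter ℂ) ≤ 𝓟 (closedBall 0 B) := by
      rw [le_principal_iff]
      refine Filter.mem_map.mpr (Filter.Eventually.of_forall fun k => ?_)
      simp only [mem_closedBall, dist_zero_right]
      exact hB k z (mem_ball_self hr) hz
    obtain ⟨L, -, hL⟩ := (isCompact_closedBall (0 : ℂ) B).ultrafilter_le_nhds
      ((hyperfilter ℕ).map (fun k => F k z)) h1
    exact ⟨L, hL⟩
  choose! G hG using hlim
  have hT : TendstoLocallyUniformlyOn F G l Hp := by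
    intro u hu z hz
    obtain ⟨r, hr, B, hB⟩ := hbd z hz
    have hV : IsOpen (ball z r ∩ Hp) := isOpen_ball.inter Hp_open
    have hzV : z ∈ ball z r ∩ Hp := ⟨mem_ball_self hr, hz⟩
    have h1 : TendstoLocallyUniformlyOn F G l (ball z r ∩ Hp) :=
      tlu_of_pointwise hV (fun k => (hF k).mono inter_subset_right)
        (fun k w hw => hB k w hw.1 hw.2) (fun w hw => hG w hw.2)
    obtain ⟨t, ht, h2⟩ := h1 u hu z hzV
    refine ⟨t, ?_, h2⟩
    rw [hV.nhdsWithin_eq hzV] at ht
    exact mem_nhdsWithin_of_mem_nhds ht
  have hGd : DifferentiableOn ℂ G Hp :=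
    hT.differentiableOn (Eventually.of_forall hF) Hp_open
  refine ⟨G, hGd, hG, ?_, ?_, ?_, ?_⟩
  · intro z hz
    exact (hT.deriv (Eventually.of_forall hF) Hp_open).tendsto_at hz
  · intro z hz w hw
    refine hT.tendsto_comp (hGd z hz).continuousWithinAt hz ?_
    rwa [Hp_open.nhdsWithin_eq hz]
  · intro hinj
    by_contra hcon
    push Not at hcon
    obtain ⟨h1, h2⟩ := hcon
    unfold InjOn at h1
    push Not at h1
    obtain ⟨z1, hz1, z2, hz2, he, hne⟩ := h1
    obtain ⟨r1, hr1, B1, hB1⟩ := hbd z1 hz1
    obtain ⟨r2, hr2, B2, hB2⟩ := hbd z2 hz2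
    set V := ball z2 (min r2 (dist z1 z2)) ∩ Hp with hVdef
    have hV : IsOpen V := isOpen_ball.inter Hp_open
    have hd : 0 < dist z1 z2 := dist_pos.mpr hne
    have hz2V : z2 ∈ V := ⟨mem_ball_self (lt_min hr2 hd), hz2⟩
    have hT' : TendstoLocallyUniformlyOn (fun k z => F k z - F k z1) (fun z => G z - G z1) l V := by
      refine tlu_of_pointwise hV (M := B2 + B1)
        (fun k => ((hF k).mono inter_subset_right).sub_const _) ?_ ?_
      · intro k w hw
        have h3 := hB2 k w (ball_subset_ball (min_le_left _ _) hw.1) hw.2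
        have h4 := hB1 k z1 (mem_ball_self hr1) hz1
        exact (norm_sub_le _ _).trans (add_le_add h3 h4)
      · intro w hw
        exact (hG w hw.2).sub (hG z1 hz1)
    have h5 := hurwitz hV (fun k => ((hF k).mono inter_subset_right).sub_const _) hT'
      (fun k z hz h0 => by
        have h6 := hinj k hz.2 hz1 (sub_eq_zero.mp h0)
        rw [h6] at hz
        have h7 : dist z1 z2 < min r2 (dist z1 z2) := hz.1
        exact absurd (h7.trans_le (min_le_right _ _)) (lt_irrefl _)) hz2V
      (by rw [he, sub_self])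
    obtain ⟨z, hz, hne'⟩ := h2 (G z1)
    exact hne' (const_of_ev hGd hz2 h5 z hz)
  · intro p hp
    by_contra hcon
    push Not at hcon
    obtain ⟨⟨a, ha, hap⟩, z0, hz0, hz0p⟩ := hcon
    classical
    obtain ⟨r, hr, B, hB⟩ := hbd a ha
    have hB0 : 0 ≤ B := (norm_nonneg _).trans (hB 0 a (mem_ball_self hr) ha)
    set V := ball a r ∩ Hp with hVdef
    have hV : IsOpen V := isOpen_ball.inter Hp_open
    have haV : a ∈ V := ⟨mem_ball_self hr, ha⟩
    set F' : ℕ → ℂ → ℂ := fun k z => if p ∉ F k '' Hp then F k z - p else 1 with hF'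
    have hF'd : ∀ k, DifferentiableOn ℂ (F' k) V := by
      intro k
      by_cases hk : p ∉ F k '' Hp
      · have : F' k = fun z => F k z - p := by
          funext z; simp only [hF']; rw [if_pos hk]
        rw [this]
        exact ((hF k).mono inter_subset_right).sub_const _
      · have : F' k = fun _ => 1 := by
          funext z; simp only [hF']; rw [if_neg hk]
        rw [this]
        exact differentiableOn_const _
    have hT' : TendstoLocallyUniformlyOn F' (fun z => G z - p) l V := by
      refine tlu_of_pointwise hV (M := B + ‖p‖ + 1) hF'd ?_ ?_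
      · intro k w hw
        simp only [hF']
        split_ifs
        · rw [norm_one]
          have := norm_nonneg p
          linarith
        · have h3 := hB k w hw.1 hw.2
          exact (norm_sub_le _ _).trans (by linarith)
      · intro w hw
        have h4 : Tendsto (fun k => F k w - p) l (𝓝 (G w - p)) := (hG w hw.2).sub_const p
        refine h4.congr' ?_
        filter_upwards [hp] with k hk
        simp only [hF']
        rw [if_pos hk]
    have h5 := hurwitz hV hF'd hT' (fun k z hz => by
      simp only [hF']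
      split_ifs with h
      · exact one_ne_zero
      · intro h0
        exact h ⟨z, hz.2, sub_eq_zero.mp h0⟩) haV (by rw [hap, sub_self])
    exact hz0p (const_of_ev hGd ha h5 z0 hz0)

end Pool.Agent.Y458.LW
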